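import Mathlib

/-!
# Crew ED, MP_5ec15a_lc: groups with EDT0L word problem are finite.  Definitions.
Paper proof: Pool/Agent/H71/ED/NOTES.md.  All statements: Pool/Agent/H71/ED/Stm.lean.
-/
set_option autoImplicit false

namespace H71.ED

/-! ## Block S: the scanning lemma -/

/-- `V` is a union of at most `k` intervals -/
def UI (k : ℕ) (V : Finset ℕ) : Prop :=
  ∃ I : Fin k → ℕ × ℕ, V = Finset.univ.biUnion (fun i => Finset.Ico (I i).1 (I i).2)

/-- a scanning chain of the word `e` (a list of numbers) -/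
def Chain (k D : ℕ) (K : ℤ) (e : List ℤ) (T : ℕ) (V : ℕ → Finset ℕ) : Prop :=
  V 0 = ∅ ∧ V T = Finset.range e.length ∧ (∀ t < T, V t ⊆ V (t + 1)) ∧
    (∀ t < T, (V (t + 1) \ V t).card ≤ D) ∧ (∀ t ≤ T, UI k (V t)) ∧
    (∀ t ≤ T, |∑ i ∈ V t, e.getD i 0| ≤ K)

/-- a layout: tokens `m < n` with level `lev m` in `1..J`, sign `plus m`, first letter `st m`;
`e` the letters, `lv` the level of a letter, `nx m` the end of the run of lower tokens
(the sea) after token `m` -/
structure Lay where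
  (k D K J p q Nw : ℕ)
  (lam H Nc : ℕ → ℕ)
  n : ℕ
  (lev nx st lv : ℕ → ℕ)
  plus : ℕ → Bool
  e : ℕ → ℤ
  hk : 1 ≤ k
  hJ : J = 2 * k + 1
  hp : p = 2 * k + 1
  hq : q = 2 * k
  hNw : Nw = 8 * k + 1
  hlev : ∀ m < n, 1 ≤ lev m ∧ lev m ≤ J
  hst0 : st 0 = 0
  hst : ∀ m < n, st (m + 1) = st m + (if plus m then p else q) * lam (lev m)
  he : ∀ m < n, ∀ i ∈ Finset.Ico (st m) (st (m + 1)),
    e i = (if plus m then 1 else -1) ∧ lv i = lev m
  hH : ∀ j, 1 ≤ j → j ≤ J → ∀ x ≤ st n,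
    0 ≤ ∑ i ∈ (Finset.range x).filter (fun i => lv i < j), e i ∧
      ∑ i ∈ (Finset.range x).filter (fun i => lv i < j), e i ≤ (H (j - 1) : ℤ)
  hlam : ∀ j, 1 ≤ j → j ≤ J → 2 * K + 4 * k * H (j - 1) + D < lam j
  hnx : ∀ m < n, m < nx m ∧ nx m ≤ n ∧ (∀ i, m < i → i < nx m → lev i < lev m) ∧
    (nx m < n → lev m ≤ lev (nx m))
  hsea : ∀ m < n, 2 ≤ lev m →
    Nc (lev m - 1) ≤ ((Finset.Ioo m (nx m)).filter (fun i => lev i = lev m - 1)).card
  hNc : ∀ j, 2 ≤ j → j ≤ J → D + (4 * k * (p * lam j) + 1) * (D + 2 * k + Nw) ≤ Nc (j - 1)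
  htop : Nw ≤ ((Finset.range n).filter (fun i => lev i = J)).card

namespace Lay

variable (Y : Lay)

/-- the letters of token `m` -/
def tk (m : ℕ) : Finset ℕ := Finset.Ico (Y.st m) (Y.st (m + 1))

/-- the letters of the sea after token `m` -/
def sea (m : ℕ) : Finset ℕ := Finset.Ico (Y.st (m + 1)) (Y.st (Y.nx m))

/-- `V` (times `0..T`) is a chain of the layout `Y` -/
def Ch (T : ℕ) (V : ℕ → Finset ℕ) : Prop :=
  V 0 = ∅ ∧ V T = Finset.range (Y.st Y.n) ∧ (∀ s t, s ≤ t → t ≤ T → V s ⊆ V t) ∧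
    (∀ t < T, (V (t + 1) \ V t).card ≤ Y.D) ∧ (∀ t ≤ T, UI Y.k (V t)) ∧
    (∀ t ≤ T, |∑ i ∈ V t, Y.e i| ≤ (Y.K : ℤ))

/-- some token of level `j` is partially contained in `W` -/
def Dirty (W : Finset ℕ) (j : ℕ) : Prop :=
  ∃ m < Y.n, Y.lev m = j ∧ (Y.tk m ∩ W).Nonempty ∧ ¬ Y.tk m ⊆ W

/-- tokens of level `j` untouched by `W` and complete in `W'` -/
def fresh (W W' : Finset ℕ) (j : ℕ) : Finset ℕ :=
  (Finset.range Y.n).filter (fun m => Y.lev m = j ∧ Disjoint (Y.tk m) W ∧ Y.tk m ⊆ W')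

/-- tokens of level `j` which meet `W' \ W` -/
def meet (W W' : Finset ℕ) (j : ℕ) : Finset ℕ :=
  (Finset.range Y.n).filter (fun m => Y.lev m = j ∧ (Y.tk m ∩ (W' \ W)).Nonempty)

/-- the induction hypothesis `H(j)` -/
def HH (V : ℕ → Finset ℕ) (T j u v : ℕ) : Prop :=
  u < v ∧ v ≤ T ∧ (∀ i ∈ V v \ V u, Y.lv i ≤ j) ∧
    (∀ t, u ≤ t → t ≤ v → ∀ i, j < i → i ≤ Y.J → Y.Dirty (V t) i) ∧
    Y.Nw ≤ (Y.fresh (V u) (V v) j).card

end Lay

/-! ## Block E: the EDT0L machine -/

/-- iterated application of tables -/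
def der {A J : Type} (σ : J → A → List A) (js : List J) (u : List A) : List A :=
  js.foldl (fun u j => u.flatMap (σ j)) u

/-- the hypothesis: the word problem over `Sg` is the language of the system -/
def WPsys {G A J : Type} [Group G] (Sg : Set G) (ι : G → A) (ω : List A)
    (σ : J → A → List A) : Prop :=
  Set.InjOn ι Sg ∧ ∀ w : List G, (∀ x ∈ w, x ∈ Sg) →
    (w.prod = 1 ↔ ∃ js : List J, der σ js ω = w.map ι)

/-- a snapshot of a derivation: the sentential form `X` and the words `κ c` (over `Sg`)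
finally derived from its letters -/
def Snap {G A J : Type} [Group G] (Sg : Set G) (ι : G → A) (ω : List A)
    (σ : J → A → List A) (X : List A) (κ : A → List G) : Prop :=
  (∃ js, der σ js ω = X) ∧
    ∃ js, ∀ c ∈ X, der σ js [c] = (κ c).map ι ∧ ∀ g ∈ κ c, g ∈ Sg

/-- the full chain of snapshots of one derivation of `w` -/
def FullChain {G A J : Type} [Group G] (Sg : Set G) (ι : G → A) (ω : List A)
    (σ : J → A → List A) (w : List G) (r : ℕ) (X : ℕ → List A) (κ : ℕ → A → List G) : Prop :=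
  (∀ t ≤ r, Snap Sg ι ω σ (X t) (κ t) ∧ (X t).flatMap (κ t) = w) ∧ X 0 = ω ∧
    (∀ c ∈ X r, (κ r c).length = 1) ∧
    ∀ t < r, ∃ j, X (t + 1) = (X t).flatMap (σ j) ∧
      ∀ c ∈ X t, κ t c = (σ j c).flatMap (κ (t + 1))

/-! ## Block C: chains of sets of blocks -/

/-- no factor of length `L` occurs at two different positions of `w` -/
def NR {G : Type} (L : ℕ) (w : List G) : Prop :=
  ∀ p q, p < q → q + L ≤ w.length → (w.drop p).take L ≠ (w.drop q).take L

/-- sum of `F (end) - F (start)` over the long letters (`L ≤ |κ c|`) of `X`, first position `s` -/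
def LS {G A : Type} (L : ℕ) (F : ℕ → ℤ) (κ : A → List G) : List A → ℕ → ℤ
  | [], _ => 0
  | c :: X, s => (if L ≤ (κ c).length then F (s + (κ c).length) - F s else 0) +
      LS L F κ X (s + (κ c).length)

/-- blocks `b < N` (block `b` is the interval `[β b, β (b+1))`) contained in a long letter -/
def VS {G A : Type} (L : ℕ) (β : ℕ → ℕ) (N : ℕ) (κ : A → List G) : List A → ℕ → Finset ℕ
  | [], _ => ∅
  | c :: X, s => (if L ≤ (κ c).length then
      (Finset.range N).filter (fun b => s ≤ β b ∧ β (b + 1) ≤ s + (κ c).length) else ∅) ∪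
      VS L β N κ X (s + (κ c).length)

/-- number of long letters -/
def NL {G A : Type} (L : ℕ) (κ : A → List G) (X : List A) : ℕ :=
  X.countP (fun c => decide (L ≤ (κ c).length))

/-- partition of `[0, n)` in `N` nonempty blocks such that `c0` consecutive blocks have total
length at least `L` -/
def Part (β : ℕ → ℕ) (N n L c0 : ℕ) : Prop :=
  β 0 = 0 ∧ β N = n ∧ (∀ b < N, β b < β (b + 1)) ∧ ∀ b, b + c0 ≤ N → β b + L ≤ β (b + c0)

/-- sum of `f` over the blocks that end at or before `x` -/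
def Fb (β : ℕ → ℕ) (N : ℕ) (f : ℕ → ℤ) (x : ℕ) : ℤ :=
  ∑ b ∈ (Finset.range N).filter (fun b => β (b + 1) ≤ x), f b

/-! ## Block W: marker words -/

/-- the filler `(b b⁻¹)^n` -/
def flr {G : Type} [Group G] (b : G) (n : ℕ) : List G := (List.replicate n [b, b⁻¹]).flatten

open Classical in
/-- the end mark of a block: product 1, last letter not `a` (if `a ≠ b`) -/
noncomputable def endm {G : Type} [Group G] (a b : G) : List G :=
  if b⁻¹ = a then [b⁻¹, b] else [b, b⁻¹]

/-- a block -/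
noncomputable def blk {G : Type} [Group G] (a b : G) (m n : ℕ) (x : List G) : List G :=
  List.replicate m a ++ List.replicate m a⁻¹ ++ flr b n ++ x ++ endm a b

/-- the marker word: blocks number `i, i+1, ...` for the syllables `xs`, `n_i = n0 + (c+1) i`,
`m = c + 3` -/
noncomputable def mkw {G : Type} [Group G] (a b : G) (c n0 : ℕ) : ℕ → List (List G) → List G
  | _, [] => []
  | i, x :: xs => blk a b (c + 3) (n0 + (c + 1) * i) x ++ mkw a b c n0 (i + 1) xs

/-- start of block number `i` of the marker word -/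
noncomputable def mkb {G : Type} [Group G] (a b : G) (c n0 : ℕ) (xs : List (List G)) (i : ℕ) : ℕ :=
  (mkw a b c n0 0 (xs.take i)).length

/-- upper bound for the block length -/
def gmax (c n0 N : ℕ) : ℕ := 2 * (c + 3) + 2 * (n0 + (c + 1) * N) + c + 2

/-! ## Growth -/

/-- elements of `G` which are products of exactly `l` letters of `Sg` -/
def sph {G : Type} [Group G] (Sg : Set G) (l : ℕ) : Set G :=
  {g | ∃ w : List G, w.length = l ∧ (∀ x ∈ w, x ∈ Sg) ∧ w.prod = g}

end H71.ED
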