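import Pool.Agent.H71.ED.Defs

/-!
# Crew ED: all statements.  Proofs on paper: NOTES.md.
A part `XX` is a theorem `t_XX : S_XX` (all parts are independent: parts that use other parts
take the corresponding statement as a hypothesis in the assembly only, see the comments; you may
also add hypotheses `(h : S_YY)` to your theorem for the parts listed in `deps`).
-/
set_option autoImplicit false

namespace H71.ED

open Finset

/-! ## Block S -/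

/-- [PT] at most `2k` disjoint intervals are partially contained in a union of `k` intervals -/
def S_PT : Prop := ∀ (k : ℕ) (W : Finset ℕ), UI k W → ∀ (s : Finset ℕ) (a b : ℕ → ℕ),
  (∀ m ∈ s, ∀ m' ∈ s, m ≠ m' → Disjoint (Ico (a m) (b m)) (Ico (a m') (b m'))) →
  (∀ m ∈ s, (Ico (a m) (b m) ∩ W).Nonempty ∧ ¬ Ico (a m) (b m) ⊆ W) → s.card ≤ 2 * k

/-- [GS] summation by parts -/
def S_GS : Prop := ∀ (k : ℕ) (W : Finset ℕ), UI k W → ∀ (g : ℕ → ℤ) (H n : ℕ), W ⊆ range n →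
  (∀ x ≤ n, 0 ≤ ∑ i ∈ range x, g i ∧ ∑ i ∈ range x, g i ≤ (H : ℤ)) →
  |∑ i ∈ W, g i| ≤ 2 * k * H

/-- [CA] Claim A -/
def S_CA : Prop := ∀ (Y : Lay) (T : ℕ) (V : ℕ → Finset ℕ), Y.Ch T V → ∀ j t' t : ℕ,
  1 ≤ j → j ≤ Y.J → t' ≤ t → t ≤ T → ¬ Y.Dirty (V t') j → ¬ Y.Dirty (V t) j →
  (∀ i ∈ V t \ V t', Y.lv i ≤ j) → (∃ i ∈ V t \ V t', Y.lv i = j) →
  Y.p + Y.q ≤ (Y.fresh (V t') (V t) j).card

/-- [CB] Claim B -/
def S_CB : Prop := ∀ (Y : Lay) (T : ℕ) (V : ℕ → Finset ℕ), Y.Ch T V → ∀ j a b : ℕ,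
  2 ≤ j → a ≤ b → b ≤ T →
  (∀ m < Y.n, Y.lev m = j → ¬ (Disjoint (Y.sea m) (V a) ∧ Y.sea m ⊆ V b)) →
  (Y.meet (V a) (V b) j).card ≤ 4 * Y.k

/-- [CC] Claim C (uses PT? no; uses CA) -/
def S_CC : Prop := ∀ (Y : Lay) (T : ℕ) (V : ℕ → Finset ℕ), Y.Ch T V → ∀ j u v : ℕ,
  1 ≤ j → j ≤ Y.J → Y.HH V T j u v →
  ∃ a b, u ≤ a ∧ a < b ∧ b ≤ v ∧ (∀ t, a < t → t ≤ b → Y.Dirty (V t) j) ∧
    4 * Y.k + 1 ≤ (Y.meet (V a) (V b) j).card

/-- [CD] Claim D (uses CC, CB, PT) -/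
def S_CD : Prop := ∀ (Y : Lay) (T : ℕ) (V : ℕ → Finset ℕ), Y.Ch T V → ∀ j u v : ℕ,
  2 ≤ j → j ≤ Y.J → Y.HH V T j u v → ∃ u' v', Y.HH V T (j - 1) u' v'

/-- [CE] end and base of the induction: no chain (uses CC, CD, PT) -/
def S_CE : Prop := ∀ (Y : Lay) (T : ℕ) (V : ℕ → Finset ℕ), ¬ Y.Ch T V

/-- [LAY] existence of layouts -/
def S_LAY : Prop := ∀ k D K : ℕ, 1 ≤ k → ∃ Y : Lay, Y.k = k ∧ Y.D = D ∧ Y.K = K ∧
  ∑ i ∈ range (Y.st Y.n), Y.e i = 0 ∧ ∀ x ≤ Y.st Y.n, 0 ≤ ∑ i ∈ range x, Y.e i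

/-- [SCAN] the scanning lemma (uses CE, LAY) -/
def S_SCAN : Prop := ∀ k D K : ℕ, ∃ e : List ℤ, (∀ x ∈ e, x = 1 ∨ x = -1) ∧ e.sum = 0 ∧
  (∀ n, 0 ≤ (e.take n).sum) ∧ ∀ T V, ¬ Chain k D (K : ℤ) e T V

/-! ## Block E -/

/-- [FC] every trivial word has a full chain of snapshots -/
def S_FC : Prop := ∀ (G A J : Type) [Group G] (Sg : Set G) (ι : G → A) (ω : List A)
  (σ : J → A → List A), WPsys Sg ι ω σ → ∀ w : List G, (∀ x ∈ w, x ∈ Sg) → w.prod = 1 →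
  ∃ r X κ, FullChain Sg ι ω σ w r X κ

/-- [MIX] mixing of two snapshots -/
def S_MIX : Prop := ∀ (G A J : Type) [Group G] (Sg : Set G) (ι : G → A) (ω : List A)
  (σ : J → A → List A), WPsys Sg ι ω σ → ∀ (X X' : List A) (κ κ' : A → List G),
  Snap Sg ι ω σ X κ → Snap Sg ι ω σ X' κ' → (∀ c ∈ X', c ∈ X) → (X'.flatMap κ).prod = 1

/-! ## Block C -/

/-- [NOD] a long letter occurs once -/
def S_NOD : Prop := ∀ (G A : Type) [Fintype A] (L : ℕ) (κ : A → List G) (X : List A),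
  1 ≤ L → NR L (X.flatMap κ) → NL L κ X ≤ Fintype.card A

/-- [STEP] -/
def S_STEP : Prop := ∀ (G A : Type) (L B M : ℕ) (F : ℕ → ℤ) (κ κ' : A → List G) (X : List A)
  (τ : A → List A), (∀ c ∈ X, κ c = (τ c).flatMap κ') → (∀ c ∈ X, (τ c).length ≤ M) →
  (∀ x y, x ≤ y → y < x + L → |F y - F x| ≤ B) → ∀ s : ℕ,
  |LS L F κ X s - LS L F κ' (X.flatMap τ) s| ≤ B * M * NL L κ X

/-- [TOT] -/
def S_TOT : Prop := ∀ (G A : Type) (L B : ℕ) (F : ℕ → ℤ) (κ : A → List G) (X : List A),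
  (∀ x y, x ≤ y → y < x + L → |F y - F x| ≤ B) → ∀ s : ℕ,
  |F (s + (X.flatMap κ).length) - F s - LS L F κ X s| ≤ B * X.length

/-- [VM] monotonicity of the block sets -/
def S_VM : Prop := ∀ (G A : Type) (L N : ℕ) (β : ℕ → ℕ) (κ κ' : A → List G) (X : List A)
  (τ : A → List A), (∀ c ∈ X, κ c = (τ c).flatMap κ') → ∀ s : ℕ,
  VS L β N κ' (X.flatMap τ) s ⊆ VS L β N κ X s

/-- [VU] the block sets are unions of few intervals -/
def S_VU : Prop := ∀ (G A : Type) (L N k : ℕ) (β : ℕ → ℕ) (κ : A → List G) (X : List A) (s : ℕ),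
  (∀ b < N, β b < β (b + 1)) → NL L κ X ≤ k → UI k (VS L β N κ X s)

/-- [VF] sums over block sets -/
def S_VF : Prop := ∀ (G A : Type) (L N : ℕ) (β : ℕ → ℕ) (κ : A → List G) (X : List A) (s : ℕ)
  (f : ℕ → ℤ), 1 ≤ L → (∀ b < N, β b < β (b + 1)) → (∀ b, |f b| ≤ 1) →
  |∑ b ∈ VS L β N κ X s, f b - LS L (Fb β N f) κ X s| ≤ NL L κ X

/-- [FB] -/
def S_FB : Prop := ∀ (N n L c0 : ℕ) (β : ℕ → ℕ) (f : ℕ → ℤ), Part β N n L c0 →
  (∀ b, |f b| ≤ 1) → ∀ x y, x ≤ y → y < x + L → |Fb β N f y - Fb β N f x| ≤ c0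

/-- [VIO] a word which cannot be scanned gives an unbalanced snapshot
(uses FC, NOD, STEP, TOT, VM, VU, VF, FB).  `D = c0 M k + 2 k + c0 M` -/
def S_VIO : Prop := ∀ (G A J : Type) [Group G] [Fintype A] (Sg : Set G) (ι : G → A)
  (ω : List A) (σ : J → A → List A), WPsys Sg ι ω σ → ∀ M : ℕ, ω.length ≤ M →
  (∀ j a, (σ j a).length ≤ M) → ∀ (w : List G) (L N c0 : ℕ) (K : ℕ) (β : ℕ → ℕ) (e : List ℤ),
  (∀ x ∈ w, x ∈ Sg) → w.prod = 1 → NR L w → 2 ≤ L → Part β N w.length L c0 → e.length = N →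
  (∀ x ∈ e, x = 1 ∨ x = -1) → e.sum = 0 →
  (∀ T V, ¬ Chain (Fintype.card A)
    (c0 * M * Fintype.card A + 2 * Fintype.card A + c0 * M) (K : ℤ) e T V) →
  ∀ r X κ, FullChain Sg ι ω σ w r X κ →
  ∃ t ≤ r, (K : ℤ) < |∑ b ∈ VS L β N (κ t) (X t) 0, e.getD b 0|

/-! ## Block W -/

/-- [WP] product, letters and lengths of the marker word -/
def S_WP : Prop := ∀ (G : Type) [Group G] (a b : G) (c n0 : ℕ) (xs : List (List G)),
  (∀ i, (mkw a b c n0 i xs).prod = (xs.map List.prod).prod) ∧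
  (∀ (Sg : Set G) (i : ℕ), a ∈ Sg → a⁻¹ ∈ Sg → b ∈ Sg → b⁻¹ ∈ Sg → (∀ x ∈ xs, ∀ y ∈ x, y ∈ Sg) →
    ∀ y ∈ mkw a b c n0 i xs, y ∈ Sg) ∧
  (∀ i, mkb a b c n0 xs (i + 1) = mkb a b c n0 xs i +
    (if h : i < xs.length then 2 * (c + 3) + 2 * (n0 + (c + 1) * i) + (xs[i]).length + 2 else 0)) ∧
  mkb a b c n0 xs xs.length = (mkw a b c n0 0 xs).length

/-- [WN] the marker word has no repeated long factor -/
def S_WN : Prop := ∀ (G : Type) [Group G] (a b : G) (c n0 : ℕ) (xs : List (List G)),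
  a ≠ b → (∀ x ∈ xs, x.length ≤ c) → (c + 1) * (xs.length + 1) ≤ n0 →
  NR (3 * gmax c n0 xs.length) (mkw a b c n0 0 xs)

/-- [WB] the blocks of the marker word, in groups of `l` (with `l * c0 ≥ 6`) -/
def S_WB : Prop := ∀ (G : Type) [Group G] (a b : G) (c n0 l N c0 : ℕ) (xs : List (List G)),
  (∀ x ∈ xs, x.length ≤ c) → (c + 1) * (xs.length + 1) ≤ n0 → 1 ≤ l → xs.length = l * N →
  6 ≤ l * c0 → Part (fun i => mkb a b c n0 xs (l * i)) N (mkw a b c n0 0 xs).length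
    (3 * gmax c n0 xs.length) c0

/-- [WR] prefix products: finitely many residues, for syllables from a finite set.
`P i` = product of the syllables before block `i` -/
def S_WR : Prop := ∀ (G : Type) [Group G] (a b : G) (c : ℕ) (Syl : Set (List G)), Syl.Finite →
  ∃ F : Finset G, 1 ∈ F ∧ ∀ (n0 : ℕ) (xs : List (List G)), (∀ x ∈ xs, x ∈ Syl) →
    ∀ i < xs.length, ∀ n, mkb a b c n0 xs i ≤ n → n < mkb a b c n0 xs (i + 1) →
      ∃ f ∈ F, ((mkw a b c n0 0 xs).take n).prod = ((xs.take i).map List.prod).prod * f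

/-! ## Block Z -/

/-- first position of the (first) occurrence of the letter `c` -/
def lo {G A : Type} [DecidableEq A] (X : List A) (κ : A → List G) (c : A) : ℕ :=
  ((X.take (X.idxOf c)).flatMap κ).length

/-- [ZE] mixing gives equality of the exponent sums -/
def S_ZE : Prop := ∀ (G A : Type) [Group G] [DecidableEq A] (w : List G) (g : G) (E : ℕ → ℤ)
  (L : ℕ) (X X' : List A) (κ κ' : A → List G), (∀ n : ℤ, g ^ n = 1 → n = 0) → E 0 = 0 →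
  E w.length = 0 → w.prod = 1 → NR L w → 1 ≤ L → X.flatMap κ = w → X'.flatMap κ' = w →
  (X'.flatMap κ).prod = 1 → (∀ c, c ∈ X ↔ c ∈ X') →
  (∀ c ∈ X, (L ≤ (κ c).length ↔ L ≤ (κ' c).length)) →
  (∀ c ∈ X, L ≤ (κ c).length →
    (g ^ E (lo X κ c))⁻¹ * (w.take (lo X κ c)).prod =
      (g ^ E (lo X' κ' c))⁻¹ * (w.take (lo X' κ' c)).prod ∧
    (g ^ E (lo X κ c + (κ c).length))⁻¹ * (w.take (lo X κ c + (κ c).length)).prod =
      (g ^ E (lo X' κ' c + (κ' c).length))⁻¹ * (w.take (lo X' κ' c + (κ' c).length)).prod) →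
  (∀ c ∈ X, (κ c).length < L → (κ c).prod = (κ' c).prod) →
  LS L E κ X 0 = LS L E κ' X' 0

/-- [PIG] -/
def S_PIG : Prop := ∀ (D : Type) [Fintype D] (s r : ℕ) (a : ℕ → ℤ) (d : ℕ → D), a r = 0 →
  (∀ t < r, |a t - a (t + 1)| ≤ s) → (∀ t ≤ r, ∀ t' ≤ r, d t = d t' → a t = a t') →
  ∀ t ≤ r, |a t| ≤ Fintype.card D * s

/-- [ZZ] no element of infinite order
(uses SCAN, FC, MIX, NOD, STEP, VF, FB, VIO, WP, WN, WB, WR, ZE, PIG) -/
def S_ZZ : Prop := ∀ (G A J : Type) [Group G] [Fintype A] [Fintype J] (Sg : Set G) (ι : G → A)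
  (ω : List A) (σ : J → A → List A), WPsys Sg ι ω σ → Sg.Finite → (∀ x ∈ Sg, x⁻¹ ∈ Sg) →
  Subgroup.closure Sg = ⊤ → ∀ g : G, IsOfFinOrder g

/-! ## Block P -/

/-- [STK] the pairing of a sequence with nonnegative prefix sums: `m` variables, `var i` the
variable of position `i`; every variable occurs once with sign `+` and once with sign `-` -/
def S_STK : Prop := ∀ e : List ℤ, (∀ x ∈ e, x = 1 ∨ x = -1) → e.sum = 0 →
  (∀ n, 0 ≤ (e.take n).sum) → ∃ (m : ℕ) (var : ℕ → ℕ),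
    (∀ i < e.length, var i < m) ∧
    (∀ v < m, ∃! i, i < e.length ∧ var i = v ∧ e.getD i 0 = 1) ∧
    (∀ v < m, ∃! i, i < e.length ∧ var i = v ∧ e.getD i 0 = -1) ∧
    ∀ (G : Type) [Group G] (y : ℕ → G),
      ((List.range e.length).map (fun i => y (var i) ^ (e.getD i 0))).prod = 1

/-- blocks that meet a long letter -/
def TS {G A : Type} (L : ℕ) (β : ℕ → ℕ) (N : ℕ) (κ : A → List G) : List A → ℕ → Finset ℕ
  | [], _ => ∅
  | c :: X, s => (if L ≤ (κ c).length then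
      (Finset.range N).filter (fun b => s < β (b + 1) ∧ β b < s + (κ c).length) else ∅) ∪
      TS L β N κ X (s + (κ c).length)

/-- [SEP] an unbalanced snapshot separates a pair -/
def S_SEP : Prop := ∀ (G A : Type) (L N : ℕ) (β : ℕ → ℕ) (κ : A → List G) (X : List A)
  (e : List ℤ) (m : ℕ) (var : ℕ → ℕ), 1 ≤ L → (∀ b < N, β b < β (b + 1)) → e.length = N →
  (∀ x ∈ e, x = 1 ∨ x = -1) →
  (∀ i < e.length, var i < m) →
  (∀ v < m, ∃! i, i < e.length ∧ var i = v ∧ e.getD i 0 = 1) →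
  (∀ v < m, ∃! i, i < e.length ∧ var i = v ∧ e.getD i 0 = -1) →
  (2 * NL L κ X : ℤ) < |∑ b ∈ VS L β N κ X 0, e.getD b 0| →
  ∃ i i', i < N ∧ i' < N ∧ i ≠ i' ∧ var i = var i' ∧ i ∈ VS L β N κ X 0 ∧ i' ∉ TS L β N κ X 0

/-- [CNT] pigeonhole for assignments -/
def S_CNT : Prop := ∀ (D : Type) [Fintype D] (m q : ℕ), Fintype.card D < q →
  ∀ (δ : (Fin m → Fin q) → D) (c : D → Fin m),
  ∃ s s' : Fin m → Fin q, δ s = δ s' ∧ s (c (δ s)) ≠ s' (c (δ s)) ∧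
    ∀ i, i ≠ c (δ s) → s i = s' i

/-- [PM] mixing of two assignments.  The words agree outside `[l1, h1)` and `[l2, h2)`, the first
interval lies in a long letter `c1`, the second one is disjoint from the long letters -/
def S_PM : Prop := ∀ (G A : Type) [Group G] [DecidableEq A] (w w' : List G) (L l1 h1 l2 h2 : ℕ)
  (X X' : List A) (κ κ' : A → List G) (c1 : A), w.length = w'.length → NR L w → NR L w' →
  1 ≤ L → X.flatMap κ = w → X'.flatMap κ' = w' → w'.prod = 1 → (X'.flatMap κ).prod = 1 →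
  (∀ c, c ∈ X ↔ c ∈ X') → (∀ c ∈ X, (L ≤ (κ c).length ↔ L ≤ (κ' c).length)) →
  (∀ c ∈ X, L ≤ (κ c).length → lo X κ c = lo X' κ' c ∧ (κ c).length = (κ' c).length) →
  (∀ c ∈ X, (κ c).length < L → (κ c).prod = (κ' c).prod) →
  (∀ i, ¬ (l1 ≤ i ∧ i < h1) → ¬ (l2 ≤ i ∧ i < h2) → w[i]? = w'[i]?) →
  c1 ∈ X → L ≤ (κ c1).length → lo X κ c1 ≤ l1 → l1 ≤ h1 → h1 ≤ lo X κ c1 + (κ c1).length →
  (∀ c ∈ X, L ≤ (κ c).length → lo X κ c + (κ c).length ≤ l2 ∨ h2 ≤ lo X κ c) →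
  ((w.drop l1).take (h1 - l1)).prod = ((w'.drop l1).take (h1 - l1)).prod

/-- [PP] polynomial growth
(uses SCAN, FC, MIX, NOD, VIO, WP, WN, WB, WR, STK, SEP, CNT, PM) -/
def S_PP : Prop := ∀ (G A J : Type) [Group G] [Fintype A] [Fintype J] (Sg : Set G) (ι : G → A)
  (ω : List A) (σ : J → A → List A), WPsys Sg ι ω σ → Sg.Finite → (∀ x ∈ Sg, x⁻¹ ∈ Sg) →
  Subgroup.closure Sg = ⊤ → Infinite G →
  ∃ C E : ℕ, ∀ l : ℕ, 1 ≤ l → Nat.card (sph Sg l) ≤ C * l ^ E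

/-! ## Block K -/

/-- [KK] f.g. torsion groups of polynomial growth are finite -/
def S_KK : Prop := ∀ (G : Type) [Group G] (S : Set G), S.Finite → (∀ x ∈ S, x⁻¹ ∈ S) →
  Subgroup.closure S = ⊤ → (∀ g : G, IsOfFinOrder g) →
  (∃ C E : ℕ, ∀ l : ℕ, 1 ≤ l → Nat.card (sph S l) ≤ C * l ^ E) → Finite G

/-- the final theorem from ZZ, PP, KK -/
theorem final (hZ : S_ZZ) (hP : S_PP) (hK : S_KK) :
  ∀ (G : Type) [Group G] (X : Finset G),
    Subgroup.closure (X : Set G) = ⊤ →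
    (∃ (A : Type) (_ : Fintype A) (J : Type) (_ : Fintype J)
        (ι : G → A) (ω : List A) (σ : J → A → List A),
      Set.InjOn ι {x : G | x ∈ X ∨ x⁻¹ ∈ X} ∧
      ∀ w : List G, (∀ x ∈ w, x ∈ X ∨ x⁻¹ ∈ X) →
        (w.prod = 1 ↔
          ∃ js : List J, js.foldl (fun u j => u.flatMap (σ j)) ω = w.map ι)) →
    Finite G := by
  intro G _ X hX ⟨A, _, J, _, ι, ω, σ, h1, h2⟩
  by_contra hinf
  rw [not_finite_iff_infinite] at hinf
  set Sg : Set G := {x : G | x ∈ X ∨ x⁻¹ ∈ X} with hSg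
  have hW : WPsys Sg ι ω σ := ⟨h1, h2⟩
  have hf : Sg.Finite := by
    have : Sg = (X : Set G) ∪ (fun x => x⁻¹) '' (X : Set G) := by
      ext x
      simp only [hSg, Set.mem_setOf_eq, Set.mem_union, Finset.mem_coe, Set.mem_image]
      constructor
      · rintro (h | h)
        · exact Or.inl h
        · exact Or.inr ⟨x⁻¹, h, inv_inv x⟩
      · rintro (h | ⟨y, hy, rfl⟩)
        · exact Or.inl h
        · exact Or.inr (by simpa using hy)
    rw [this]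
    exact (X.finite_toSet).union ((X.finite_toSet).image _)
  have hs : ∀ x ∈ Sg, x⁻¹ ∈ Sg := by
    intro x hx
    rcases hx with h | h
    · exact Or.inr (by simpa using h)
    · exact Or.inl h
  have hc : Subgroup.closure Sg = ⊤ := by
    rw [eq_top_iff, ← hX]
    exact Subgroup.closure_mono (fun x hx => Or.inl hx)
  exact not_finite_iff_infinite.2 hinf (hK G Sg hf hs hc (hZ G A J Sg ι ω σ hW hf hs hc)
    (hP G A J Sg ι ω σ hW hf hs hc hinf))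

end H71.ED
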